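import Mathlib
import Pool.Agent.Helper86.CollatzChain
import Pool.Agent.MB86.AnyI
import Pool.Agent.MB86.All

namespace Pool.Agent.Results.MP_34aa70_nt.CoalescenceDensity

open Filter Topology
open Pool.Agent.Helper86.CollatzChain

/-- The Collatz map. -/
def C (n : ℕ) : ℕ := if n % 2 = 0 then n / 2 else 3 * n + 1

/-- The trajectories of `n` and `n + d` coalesce after the same number of steps, and before either
of them has reached `1`. -/
def Coal (d n : ℕ) : Prop :=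
  ∃ m : ℕ, C^[m] n = C^[m] (n + d) ∧ ∀ i ≤ m, C^[i] n ≠ 1 ∧ C^[i] (n + d) ≠ 1

/-- `T n` is defined, that is, some iterate of `n` equals `1`. -/
def TDefined (n : ℕ) : Prop := ∃ k : ℕ, C^[k] n = 1

/-- The number of iterations needed to reach `1`. -/
noncomputable def T (n : ℕ) : ℕ := sInf {k : ℕ | C^[k] n = 1}

/-- The difference `T (n + 1) - T n`. -/
noncomputable def a (n : ℕ) : ℤ := (T (n + 1) : ℤ) - (T n : ℤ)

/-- The number of `1 ≤ i ≤ N` for which `a i` is defined and zero. -/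
noncomputable def Z (N : ℕ) : ℕ :=
  Set.ncard {i : ℕ | 1 ≤ i ∧ i ≤ N ∧ TDefined i ∧ TDefined (i + 1) ∧ a i = 0}

/-- The number of `1 ≤ i ≤ N` for which `T i` is defined. -/
noncomputable def D (N : ℕ) : ℕ := Set.ncard {i : ℕ | 1 ≤ i ∧ i ≤ N ∧ TDefined i}

/-- The number of `1 ≤ n ≤ N` whose trajectory coalesces with that of `n + d`. -/
noncomputable def G (d N : ℕ) : ℕ := Set.ncard {n : ℕ | 1 ≤ n ∧ n ≤ N ∧ Coal d n}

/-! ### From the pair chain to the Collatz map -/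

theorem C_even (t : ℕ) : C (2 * t) = t := by
  unfold C
  have h : 2 * t % 2 = 0 := by omega
  rw [if_pos h]; omega

theorem C_odd {n : ℕ} (h : n % 2 = 1) : C n = 3 * n + 1 := by
  unfold C
  rw [if_neg (by omega)]

theorem C_C_odd (t : ℕ) : C (C (2 * t + 1)) = 3 * t + 2 := by
  rw [C_odd (by omega : (2 * t + 1) % 2 = 1)]
  have : 3 * (2 * t + 1) + 1 = 2 * (3 * t + 2) := by ring
  rw [this, C_even]

theorem coalesce (k : ℕ) : ∀ (j : ℕ) (e : ℤ) (x y : ℕ), (y : ℤ) = 3 ^ j * x + e →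
    w k (j, e) x = 0 → ∃ m, m ≤ 2 * k ∧ C^[m + j] x = C^[m] y := by
  induction k with
  | zero =>
    intro j e x y hy hw
    by_cases hs : (j, e) = (0, 0)
    · obtain ⟨rfl, rfl⟩ := Prod.mk.inj hs
      refine ⟨0, le_rfl, ?_⟩
      have : y = x := by simpa using hy
      simp [this]
    · simp [w, hs] at hw
  | succ k ih =>
    intro j e x y hy hw
    by_cases hs : (j, e) = (0, 0)
    · obtain ⟨rfl, rfl⟩ := Prod.mk.inj hs
      refine ⟨0, by omega, ?_⟩
      have : y = x := by simpa using hy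
      simp [this]
    obtain ⟨v, hv⟩ := three_pow_odd j
    have hv' : (3 : ℤ) ^ j = 2 * v + 1 := by linarith
    rcases Nat.even_or_odd' x with ⟨t, rfl | rfl⟩
    · push_cast at hw
      rw [w_even hs] at hw
      rcases Int.even_or_odd' e with ⟨f, rfl | rfl⟩
      · -- both even
        rw [s0_even] at hw
        obtain ⟨r, hr⟩ : ∃ r : ℕ, y = 2 * r := by
          have h2 : (2 : ℤ) ∣ y := by
            rw [hy]; push_cast
            exact ⟨3 ^ j * t + f, by ring⟩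
          exact_mod_cast h2
        subst hr
        have hy' : (r : ℤ) = 3 ^ j * t + f := by push_cast at hy; linarith
        obtain ⟨m, hm, hmc⟩ := ih j f t r hy' hw
        refine ⟨m + 1, by omega, ?_⟩
        have e1 : m + 1 + j = (m + j) + 1 := by ring
        rw [e1, Function.iterate_succ_apply, Function.iterate_succ_apply, C_even, C_even, hmc]
      · -- x even, y odd
        rw [s0_odd j (by omega)] at hw
        obtain ⟨r, hr⟩ : ∃ r : ℕ, y = 2 * r + 1 := by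
          have h2 : (y : ℤ) % 2 = 1 := by
            rw [hy]; push_cast
            have : (3 : ℤ) ^ j * (2 * t) + (2 * f + 1) = 2 * (3 ^ j * t + f) + 1 := by ring
            rw [this]; omega
          exact ⟨y / 2, by omega⟩
        subst hr
        have hy' : ((3 * r + 2 : ℕ) : ℤ) = 3 ^ (j + 1) * t + (3 * (2 * f + 1) + 1) / 2 := by
          have h3 : (3 * (2 * f + 1) + 1) / 2 = 3 * f + 2 := by omega
          rw [h3, pow_succ]
          push_cast at hy ⊢
          linarith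
        obtain ⟨m, hm, hmc⟩ := ih (j + 1) _ t (3 * r + 2) hy' hw
        refine ⟨m + 2, by omega, ?_⟩
        have e1 : m + 2 + j = (m + (j + 1)) + 1 := by ring
        rw [e1, Function.iterate_succ_apply, C_even, hmc,
          Function.iterate_succ_apply, Function.iterate_succ_apply, C_C_odd]
    · push_cast at hw
      rcases Int.even_or_odd' e with ⟨f, rfl | rfl⟩
      · -- both odd
        have hsw : ¬ ((((j, 2 * f) : ℕ × ℤ).2) % 2 = 1 ∧ ((j, 2 * f) : ℕ × ℤ).1 = 0) := by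
          intro h
          have := h.1
          simp only at this
          omega
        rw [w_odd_noswap hs hsw, s1_even j f v hv] at hw
        obtain ⟨r, hr⟩ : ∃ r : ℕ, y = 2 * r + 1 := by
          have h2 : (y : ℤ) % 2 = 1 := by
            rw [hy, hv']; push_cast
            have : (2 * v + 1) * (2 * (t : ℤ) + 1) + 2 * f = 2 * (v * (2 * t + 1) + t + f) + 1 := by
              ring
            rw [this]; omega
          exact ⟨y / 2, by omega⟩
        subst hr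
        have hy' : ((3 * r + 2 : ℕ) : ℤ) = 3 ^ j * ((3 * t + 2 : ℕ) : ℤ) + (3 * f - v) := by
          push_cast at hy ⊢
          rw [hv'] at hy ⊢
          linarith
        have hw' : w k (j, 3 * f - v) ((3 * t + 2 : ℕ) : ℤ) = 0 := by
          push_cast; exact hw
        obtain ⟨m, hm, hmc⟩ := ih j _ (3 * t + 2) (3 * r + 2) hy' hw'
        refine ⟨m + 2, by omega, ?_⟩
        have e1 : m + 2 + j = (m + j) + 2 := by ring
        rw [e1, Function.iterate_succ_apply, Function.iterate_succ_apply, C_C_odd, hmc,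
          Function.iterate_succ_apply, Function.iterate_succ_apply, C_C_odd]
      · -- x odd, y even
        obtain ⟨r, hr⟩ : ∃ r : ℕ, y = 2 * r := by
          have h2 : (2 : ℤ) ∣ y := by
            rw [hy, hv']; push_cast
            exact ⟨v * (2 * t + 1) + t + f + 1, by ring⟩
          exact_mod_cast h2
        subst hr
        cases j with
        | zero =>
          have hsw : ((((0, 2 * f + 1) : ℕ × ℤ).2) % 2 = 1 ∧ ((0, 2 * f + 1) : ℕ × ℤ).1 = 0) := by
            refine ⟨?_, rfl⟩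
            simp only
            omega
          rw [w_odd_swap hs hsw, s1_odd_zero (by omega)] at hw
          simp only at hw
          have hr' : (t : ℤ) + (2 * f + 1 + 1) / 2 = (r : ℤ) := by
            push_cast at hy
            omega
          rw [hr'] at hw
          have hy' : ((3 * t + 2 : ℕ) : ℤ) = 3 ^ 1 * (r : ℤ) + (1 - 3 * (2 * f + 1)) / 2 := by
            push_cast at hy ⊢
            omega
          obtain ⟨m, hm, hmc⟩ := ih 1 _ r (3 * t + 2) hy' hw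
          refine ⟨m + 2, by omega, ?_⟩
          rw [add_zero, Function.iterate_succ_apply, Function.iterate_succ_apply, C_C_odd, ← hmc,
            Function.iterate_succ_apply (n := m + 1), C_even]
        | succ j =>
          have hsw : ¬ ((((j + 1, 2 * f + 1) : ℕ × ℤ).2) % 2 = 1 ∧
              ((j + 1, 2 * f + 1) : ℕ × ℤ).1 = 0) := by
            intro h
            have := h.2
            simp only at this
            omega
          rw [w_odd_noswap hs hsw, s1_odd_succ j (by omega)] at hw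
          obtain ⟨v', hv2⟩ := three_pow_odd j
          have hy' : (r : ℤ) = 3 ^ j * ((3 * t + 2 : ℕ) : ℤ) + (2 * f + 1 - 3 ^ j) / 2 := by
            have h5 : (3 : ℤ) ^ j = 2 * v' + 1 := by linarith
            have h6 : (2 * f + 1 - (3 : ℤ) ^ j) / 2 = f - v' := by omega
            rw [h6]
            push_cast at hy ⊢
            rw [pow_succ, h5] at hy
            rw [h5]
            linarith
          have hw' : w k (j, (2 * f + 1 - 3 ^ j) / 2) ((3 * t + 2 : ℕ) : ℤ) = 0 := by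
            push_cast; exact hw
          obtain ⟨m, hm, hmc⟩ := ih j _ (3 * t + 2) r hy' hw'
          refine ⟨m + 1, by omega, ?_⟩
          have e1 : m + 1 + (j + 1) = (m + j) + 2 := by ring
          rw [e1, Function.iterate_succ_apply, Function.iterate_succ_apply, C_C_odd, hmc,
            Function.iterate_succ_apply, C_even]

theorem le_two_pow_mul_iterate (n : ℕ) : ∀ i : ℕ, n ≤ 2 ^ i * C^[i] n := by
  intro i
  induction i with
  | zero => simp
  | succ i ih =>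
    rw [Function.iterate_succ_apply']
    have h : C^[i] n ≤ 2 * C (C^[i] n) := by
      generalize C^[i] n = x
      unfold C
      split_ifs <;> omega
    calc n ≤ 2 ^ i * C^[i] n := ih
      _ ≤ 2 ^ i * (2 * C (C^[i] n)) := Nat.mul_le_mul_left _ h
      _ = 2 ^ (i + 1) * C (C^[i] n) := by rw [pow_succ]; ring

theorem iterate_ne_one {n k i : ℕ} (hn : 2 ^ (2 * k) < n) (hi : i ≤ 2 * k) : C^[i] n ≠ 1 := by
  intro h
  have h1 := le_two_pow_mul_iterate n i
  rw [h, mul_one] at h1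
  have h2 : 2 ^ i ≤ 2 ^ (2 * k) := Nat.pow_le_pow_right (by norm_num) hi
  omega

/-- `n` and `n + d` coalesce after equally many steps, before either of them reaches `1`. -/
theorem good_of_w {d k n : ℕ} (hn : 2 ^ (2 * k) < n) (hw : w k (0, (d : ℤ)) n = 0) :
    ∃ m : ℕ, C^[m] n = C^[m] (n + d) ∧ ∀ i ≤ m, C^[i] n ≠ 1 ∧ C^[i] (n + d) ≠ 1 := by
  obtain ⟨m, hm, hmc⟩ := coalesce k 0 (d : ℤ) n (n + d) (by push_cast; ring) hw
  refine ⟨m, by simpa using hmc, ?_⟩
  intro i hi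
  exact ⟨iterate_ne_one hn (hi.trans hm), iterate_ne_one (by omega : 2 ^ (2 * k) < n + d)
    (hi.trans hm)⟩

theorem stopping_eq {x y m : ℕ} (h : C^[m] x = C^[m] y)
    (h1 : ∀ i ≤ m, C^[i] x ≠ 1 ∧ C^[i] y ≠ 1) :
    {k : ℕ | C^[k] x = 1} = {k : ℕ | C^[k] y = 1} := by
  ext k
  show C^[k] x = 1 ↔ C^[k] y = 1
  rcases le_total k m with hk | hk
  · constructor
    · intro h2; exact absurd h2 (h1 k hk).1
    · intro h2; exact absurd h2 (h1 k hk).2
  · obtain ⟨r, rfl⟩ := Nat.exists_eq_add_of_le hk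
    rw [add_comm m r, Function.iterate_add_apply, Function.iterate_add_apply, h]


/-! ### Densities -/

/-- The complementary count. -/
noncomputable def Bad (d N : ℕ) : ℕ := Set.ncard {n : ℕ | 1 ≤ n ∧ n ≤ N ∧ ¬ Coal d n}

theorem finite_le (N : ℕ) (P : ℕ → Prop) : {n : ℕ | 1 ≤ n ∧ n ≤ N ∧ P n}.Finite :=
  (Set.finite_Iic N).subset fun _ h => h.2.1

theorem G_add_Bad (d N : ℕ) : G d N + Bad d N = N := by
  unfold G Bad
  have hdisj : Disjoint {n : ℕ | 1 ≤ n ∧ n ≤ N ∧ Coal d n} {n : ℕ | 1 ≤ n ∧ n ≤ N ∧ ¬ Coal d n} := by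
    rw [Set.disjoint_left]
    rintro n ⟨_, _, h1⟩ ⟨_, _, h2⟩
    exact h2 h1
  rw [← Set.ncard_union_eq hdisj (finite_le N _) (finite_le N _)]
  have h : {n : ℕ | 1 ≤ n ∧ n ≤ N ∧ Coal d n} ∪ {n : ℕ | 1 ≤ n ∧ n ≤ N ∧ ¬ Coal d n} =
      ((Finset.Icc 1 N : Finset ℕ) : Set ℕ) := by
    ext n
    rw [Finset.mem_coe, Finset.mem_Icc]
    constructor
    · rintro (⟨h1, h2, _⟩ | ⟨h1, h2, _⟩) <;> exact ⟨h1, h2⟩
    · rintro ⟨h1, h2⟩
      by_cases h3 : Coal d n
      · left; exact ⟨h1, h2, h3⟩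
      · right; exact ⟨h1, h2, h3⟩
  rw [h, Set.ncard_coe_finset]
  simp

theorem Bad_le (d k N : ℕ) :
    (Bad d N : ℝ) ≤ (2 ^ (2 * k) + 1) + (N + 1 + 2 ^ k) * u k (0, (d : ℤ)) := by
  classical
  set A : Finset ℕ := (Finset.range (N + 1)).filter (fun n => w k (0, (d : ℤ)) n ≠ 0) with hA
  have h1 : {n : ℕ | 1 ≤ n ∧ n ≤ N ∧ ¬ Coal d n} ⊆
      ((Finset.range (2 ^ (2 * k) + 1) ∪ A : Finset ℕ) : Set ℕ) := by
    rintro n ⟨hn1, hnN, hn⟩
    rw [Finset.mem_coe, Finset.mem_union]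
    by_cases hsmall : n ≤ 2 ^ (2 * k)
    · left; exact Finset.mem_range.2 (by omega)
    · right
      rw [hA, Finset.mem_filter]
      refine ⟨Finset.mem_range.2 (by omega), ?_⟩
      intro h
      exact hn (good_of_w (by omega) h)
  have h2 : Bad d N ≤ (2 ^ (2 * k) + 1) + A.card := by
    unfold Bad
    calc Set.ncard {n : ℕ | 1 ≤ n ∧ n ≤ N ∧ ¬ Coal d n}
        ≤ Set.ncard ((Finset.range (2 ^ (2 * k) + 1) ∪ A : Finset ℕ) : Set ℕ) :=
          Set.ncard_le_ncard h1 (Finset.finite_toSet _)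
      _ = (Finset.range (2 ^ (2 * k) + 1) ∪ A).card := Set.ncard_coe_finset _
      _ ≤ (Finset.range (2 ^ (2 * k) + 1)).card + A.card := Finset.card_union_le _ _
      _ = (2 ^ (2 * k) + 1) + A.card := by rw [Finset.card_range]
  have h3 : (A.card : ℝ) = ∑ i ∈ Finset.range (N + 1), w k (0, (d : ℤ)) i := by
    rw [hA, Finset.card_filter]
    push_cast
    apply Finset.sum_congr rfl
    intro i _
    rcases w_zero_or_one k (0, (d : ℤ)) i with h | h
    · simp [h]
    · simp [h]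
  have h4 := sum_w_le k (N + 1) (0, (d : ℤ))
  have h5 : (Bad d N : ℝ) ≤ (2 ^ (2 * k) + 1) + (A.card : ℝ) := by exact_mod_cast h2
  rw [h3] at h5
  push_cast at h4
  linarith

theorem Bad_tendsto (d : ℕ) : Tendsto (fun N : ℕ => (Bad d N : ℝ) / N) atTop (𝓝 0) := by
  rw [Metric.tendsto_atTop]
  intro ε hε
  obtain ⟨k, hk⟩ := ((u_tendsto_zero (0, (d : ℤ))).eventually (gt_mem_nhds (half_pos hε))).exists
  set c : ℝ := (2 ^ (2 * k) + 1) + (1 + 2 ^ k) with hc
  obtain ⟨N0, hN0⟩ := exists_nat_gt (2 * c / ε)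
  refine ⟨N0 + 1, fun N hN => ?_⟩
  have hNpos : (0 : ℝ) < N := by
    have : 0 < N := by omega
    exact_mod_cast this
  have h1 := Bad_le d k N
  have hu := u_nonneg k (0, (d : ℤ))
  have hu1 := u_le_one k (0, (d : ℤ))
  have h2 : (Bad d N : ℝ) ≤ c + N * u k (0, (d : ℤ)) := by
    have h3 : (1 + (2 : ℝ) ^ k) * u k (0, (d : ℤ)) ≤ (1 + 2 ^ k) * 1 :=
      mul_le_mul_of_nonneg_left hu1 (by positivity)
    rw [hc]
    nlinarith
  have h3 : c < N * (ε / 2) := by
    have h4 : (N0 : ℝ) ≤ N := by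
      have : N0 ≤ N := by omega
      exact_mod_cast this
    have h5 : 2 * c / ε < N := lt_of_lt_of_le hN0 h4
    rw [div_lt_iff₀ hε] at h5
    linarith
  have h4 : (N : ℝ) * u k (0, (d : ℤ)) < N * (ε / 2) := mul_lt_mul_of_pos_left hk hNpos
  rw [Real.dist_eq, sub_zero, abs_of_nonneg (by positivity), div_lt_iff₀ hNpos]
  linarith

theorem G_tendsto (d : ℕ) : Tendsto (fun N : ℕ => (G d N : ℝ) / N) atTop (𝓝 1) := by
  have h1 : Tendsto (fun N : ℕ => 1 - (Bad d N : ℝ) / N) atTop (𝓝 (1 - 0)) :=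
    tendsto_const_nhds.sub (Bad_tendsto d)
  rw [sub_zero] at h1
  refine h1.congr' ?_
  filter_upwards [eventually_gt_atTop 0] with N hN
  have hNpos : (N : ℝ) ≠ 0 := by
    have : N ≠ 0 := by omega
    exact_mod_cast this
  have h2 : (G d N : ℝ) + Bad d N = N := by exact_mod_cast G_add_Bad d N
  have h3 : (G d N : ℝ) = N - Bad d N := by linarith
  rw [h3, sub_div, div_self hNpos]

theorem D_sub_Z (N : ℕ) : Z N ≤ D N ∧ D N ≤ Z N + Bad 1 N := by
  have hsub : {i : ℕ | 1 ≤ i ∧ i ≤ N ∧ TDefined i ∧ TDefined (i + 1) ∧ a i = 0} ⊆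
      {i : ℕ | 1 ≤ i ∧ i ≤ N ∧ TDefined i} := by
    rintro i ⟨h1, h2, h3, _, _⟩
    exact ⟨h1, h2, h3⟩
  refine ⟨Set.ncard_le_ncard hsub (finite_le N _), ?_⟩
  have h1 : {i : ℕ | 1 ≤ i ∧ i ≤ N ∧ TDefined i} ⊆
      {i : ℕ | 1 ≤ i ∧ i ≤ N ∧ TDefined i ∧ TDefined (i + 1) ∧ a i = 0} ∪
      {n : ℕ | 1 ≤ n ∧ n ≤ N ∧ ¬ Coal 1 n} := by
    rintro i ⟨hi1, hiN, hi⟩
    by_cases hg : Coal 1 i
    · left
      obtain ⟨m, hm1, hm2⟩ := hg
      have hset := stopping_eq hm1 hm2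
      refine ⟨hi1, hiN, hi, ?_, ?_⟩
      · obtain ⟨k, hk⟩ := hi
        have h2 : k ∈ {k : ℕ | C^[k] i = 1} := hk
        rw [hset] at h2
        exact ⟨k, h2⟩
      · have h2 : T i = T (i + 1) := by unfold T; rw [hset]
        unfold a
        rw [h2, sub_self]
    · right
      exact ⟨hi1, hiN, hg⟩
  unfold D Z Bad
  calc Set.ncard {i : ℕ | 1 ≤ i ∧ i ≤ N ∧ TDefined i}
      ≤ Set.ncard ({i : ℕ | 1 ≤ i ∧ i ≤ N ∧ TDefined i ∧ TDefined (i + 1) ∧ a i = 0} ∪
      {n : ℕ | 1 ≤ n ∧ n ≤ N ∧ ¬ Coal 1 n}) :=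
        Set.ncard_le_ncard h1 ((finite_le N _).union (finite_le N _))
    _ ≤ _ := Set.ncard_union_le _ _

theorem DZ_tendsto : Tendsto (fun N : ℕ => ((D N : ℝ) - Z N) / N) atTop (𝓝 0) := by
  refine squeeze_zero (fun N => ?_) (fun N => ?_) (Bad_tendsto 1)
  · have h1 : (Z N : ℝ) ≤ D N := by exact_mod_cast (D_sub_Z N).1
    apply div_nonneg _ (Nat.cast_nonneg N)
    linarith
  · have h1 : (D N : ℝ) ≤ Z N + Bad 1 N := by exact_mod_cast (D_sub_Z N).2
    apply div_le_div_of_nonneg_right _ (Nat.cast_nonneg N)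
    linarith

theorem D_le (N : ℕ) : D N ≤ N := by
  unfold D
  calc Set.ncard {i : ℕ | 1 ≤ i ∧ i ≤ N ∧ TDefined i}
      ≤ Set.ncard ((Finset.Icc 1 N : Finset ℕ) : Set ℕ) := by
        apply Set.ncard_le_ncard _ (Finset.finite_toSet _)
        rintro i ⟨h1, h2, _⟩
        rw [Finset.mem_coe, Finset.mem_Icc]
        exact ⟨h1, h2⟩
    _ = (Finset.Icc 1 N).card := Set.ncard_coe_finset _
    _ = N := by simp

theorem ratio_bounds {f : ℕ → ℕ} (hf : ∀ N, f N ≤ N) (N : ℕ) :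
    0 ≤ (f N : ℝ) / N ∧ (f N : ℝ) / N ≤ 1 := by
  refine ⟨by positivity, ?_⟩
  apply div_le_one_of_le₀ _ (Nat.cast_nonneg N)
  exact_mod_cast hf N

theorem liminf_eq_of_tendsto {f h : ℕ → ℝ} (hf : ∀ N, 0 ≤ f N ∧ f N ≤ 1)
    (hh : ∀ N, 0 ≤ h N ∧ h N ≤ 1) (ht : Tendsto (fun N => h N - f N) atTop (𝓝 0)) :
    liminf f atTop = liminf h atTop := by
  have key : ∀ p q : ℕ → ℝ, (∀ N, 0 ≤ p N ∧ p N ≤ 1) → (∀ N, 0 ≤ q N ∧ q N ≤ 1) →
      Tendsto (fun N => q N - p N) atTop (𝓝 0) → liminf p atTop ≤ liminf q atTop := by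
    intro p q hp hq hpq
    apply le_of_forall_lt
    intro b hb
    obtain ⟨b', hb1, hb2⟩ := exists_between hb
    have h1 : ∀ᶠ N in atTop, b' < p N :=
      eventually_lt_of_lt_liminf hb2 (isBoundedUnder_of ⟨0, fun N => (hp N).1⟩)
    have h2 : ∀ᶠ N in atTop, -((b' - b) / 2) < q N - p N :=
      hpq.eventually (lt_mem_nhds (by linarith))
    have h3 : ∀ᶠ N in atTop, (b + b') / 2 ≤ q N := by
      filter_upwards [h1, h2] with N h1 h2
      linarith
    have h4 : (b + b') / 2 ≤ liminf q atTop := by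
      apply le_liminf_of_le _ h3
      exact IsBoundedUnder.isCoboundedUnder_ge (isBoundedUnder_of ⟨1, fun N => (hq N).2⟩)
    linarith
  apply le_antisymm (key f h hf hh ht)
  apply key h f hh hf
  have := ht.neg
  rw [neg_zero] at this
  refine this.congr fun N => ?_
  ring

theorem D_eq (hC : ∀ n : ℕ, 1 ≤ n → TDefined n) (N : ℕ) : D N = N := by
  unfold D
  have h : {i : ℕ | 1 ≤ i ∧ i ≤ N ∧ TDefined i} = ((Finset.Icc 1 N : Finset ℕ) : Set ℕ) := by
    ext n
    rw [Finset.mem_coe, Finset.mem_Icc]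
    constructor
    · rintro ⟨h1, h2, _⟩
      exact ⟨h1, h2⟩
    · rintro ⟨h1, h2⟩
      exact ⟨h1, h2, hC n h1⟩
  rw [h, Set.ncard_coe_finset]
  simp

theorem Z_tendsto_one (hC : ∀ n : ℕ, 1 ≤ n → TDefined n) :
    Tendsto (fun N : ℕ => (Z N : ℝ) / N) atTop (𝓝 1) := by
  have h1 : Tendsto (fun N : ℕ => 1 - ((D N : ℝ) - Z N) / N) atTop (𝓝 (1 - 0)) :=
    tendsto_const_nhds.sub DZ_tendsto
  rw [sub_zero] at h1
  refine h1.congr' ?_
  filter_upwards [eventually_gt_atTop 0] with N hN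
  have hNpos : (N : ℝ) ≠ 0 := by
    have : N ≠ 0 := by omega
    exact_mod_cast this
  rw [D_eq hC N, sub_div, div_self hNpos]
  ring

/-! ### Blocks -/

/-- For some `m` all of `n, n + 1, …, n + h` have the same `m`-th iterate, and none of their first `m` iterates
is `1`. -/
def CoalB (h n : ℕ) : Prop :=
  ∃ m : ℕ, ∀ d ≤ h, C^[m] (n + d) = C^[m] n ∧ ∀ i ≤ m, C^[i] (n + d) ≠ 1

/-- The number of values which `T` takes on the integers of `[n, n + h]` where it is defined. -/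
noncomputable def V (h n : ℕ) : ℕ := Set.ncard (T '' {m : ℕ | n ≤ m ∧ m ≤ n + h ∧ TDefined m})

/-- The first `K` steps of the shortcut map `Pool.Agent.Helper14.T`. -/
theorem odd_count (K : ℕ) : ∀ n : ℕ, 2 ^ K < n → ∃ o z : ℕ,
    (z : ℤ) = Pool.Agent.Helper14.T^[K] (n : ℤ) ∧ C^[K + o] n = z ∧ 3 ^ o * n ≤ 2 ^ K * z ∧
    2 ^ K * z ≤ 3 ^ o * (n + 2 ^ K) ∧ ∀ i ≤ K + o, C^[i] n ≠ 1 := by
  induction K with
  | zero =>
    intro n hn
    refine ⟨0, n, rfl, rfl, by simp, by simp, ?_⟩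
    intro i hi
    have h0 : i = 0 := by omega
    rw [h0]
    simp at hn ⊢
    omega
  | succ K ih =>
    intro n hn
    have hpos : 1 ≤ 2 ^ K := Nat.one_le_two_pow
    rw [pow_succ] at hn
    rcases Nat.even_or_odd' n with ⟨t, rfl | rfl⟩
    · obtain ⟨o, z, h1, h2, h3, h4, h5⟩ := ih t (by omega)
      refine ⟨o, z, ?_, ?_, ?_, ?_, ?_⟩
      · rw [Function.iterate_succ_apply]
        push_cast
        rw [Pool.Agent.Helper86.CollatzInt.T_even]
        exact h1
      · have e : K + 1 + o = (K + o) + 1 := by ring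
        rw [e, Function.iterate_succ_apply, C_even]
        exact h2
      · rw [pow_succ]
        nlinarith
      · rw [pow_succ]
        nlinarith
      · intro i hi
        rcases i with _ | i
        · simp only [Function.iterate_zero, id_eq]
          omega
        · rw [Function.iterate_succ_apply, C_even]
          exact h5 i (by omega)
    · obtain ⟨o, z, h1, h2, h3, h4, h5⟩ := ih (3 * t + 2) (by omega)
      refine ⟨o + 1, z, ?_, ?_, ?_, ?_, ?_⟩
      · rw [Function.iterate_succ_apply]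
        push_cast
        rw [Pool.Agent.Helper86.CollatzInt.T_odd]
        push_cast at h1
        exact h1
      · have e : K + 1 + (o + 1) = (K + o) + 2 := by ring
        rw [e, Function.iterate_succ_apply, Function.iterate_succ_apply, C_C_odd]
        exact h2
      · have h6 : 0 < 3 ^ o := by positivity
        rw [pow_succ, pow_succ]
        nlinarith
      · have h6 : 0 < 3 ^ o := by positivity
        rw [pow_succ, pow_succ]
        nlinarith
      · intro i hi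
        rcases i with _ | _ | i
        · simp only [Function.iterate_zero, id_eq]
          omega
        · simp only [zero_add, Function.iterate_one]
          rw [C_odd (by omega)]
          omega
        · rw [Function.iterate_succ_apply, Function.iterate_succ_apply, C_C_odd]
          exact h5 i (by omega)

theorem same_o {K m m' z o o' : ℕ} (hm' : 2 ^ K < m') (hmm : m ≤ 2 * m')
    (h4 : 2 ^ K * z ≤ 3 ^ o * (m + 2 ^ K)) (h3' : 3 ^ o' * m' ≤ 2 ^ K * z) : o' ≤ o := by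
  by_contra hlt
  push Not at hlt
  have h1 : 3 * 3 ^ o ≤ 3 ^ o' := by
    calc 3 * 3 ^ o = 3 ^ (o + 1) := by rw [pow_succ]; ring
      _ ≤ 3 ^ o' := Nat.pow_le_pow_right (by norm_num) hlt
  have h2 : 3 * 3 ^ o * m' ≤ 3 ^ o * (m + 2 ^ K) :=
    (Nat.mul_le_mul_right m' h1).trans (h3'.trans h4)
  have h3 : 0 < 3 ^ o := by positivity
  have h5 : 3 ^ o * (3 * m') ≤ 3 ^ o * (m + 2 ^ K) := by linarith
  have h6 := Nat.le_of_mul_le_mul_left h5 h3
  omega

theorem coalB_of {K h n : ℕ} (hn : 2 ^ K < n) (hh : h ≤ n)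
    (H : ∀ d : ℕ, d ≤ h →
      Pool.Agent.Helper14.T^[K] ((n : ℤ) + d) = Pool.Agent.Helper14.T^[K] (n : ℤ)) : CoalB h n := by
  obtain ⟨o, z, h1, h2, h3, h4, h5⟩ := odd_count K n hn
  refine ⟨K + o, fun d hd => ?_⟩
  obtain ⟨o', z', h1', h2', h3', h4', h5'⟩ := odd_count K (n + d) (by omega)
  have hz : z' = z := by
    have := H d hd
    push_cast at h1'
    rw [this, ← h1] at h1'
    exact_mod_cast h1'
  subst hz
  have e1 : o' ≤ o := same_o (by omega) (by omega) h4 h3'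
  have e2 : o ≤ o' := same_o hn (by omega) h4' h3
  have e : o' = o := le_antisymm e1 e2
  subst e
  exact ⟨h2'.trans h2.symm, h5'⟩

theorem T_eq_of {K m m' : ℕ} (hm : 2 ^ K < m) (hm' : 2 ^ K < m') (h1 : m ≤ 2 * m') (h2 : m' ≤ 2 * m)
    (H : Pool.Agent.Helper14.T^[K] (m : ℤ) = Pool.Agent.Helper14.T^[K] (m' : ℤ)) : T m = T m' := by
  obtain ⟨o, z, a1, a2, a3, a4, a5⟩ := odd_count K m hm
  obtain ⟨o', z', b1, b2, b3, b4, b5⟩ := odd_count K m' hm'
  have hz : z' = z := by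
    rw [← H, ← a1] at b1
    exact_mod_cast b1
  subst hz
  have e1 : o' ≤ o := same_o hm' h1 a4 b3
  have e2 : o ≤ o' := same_o hm h2 b4 a3
  have e : o' = o := le_antisymm e1 e2
  subst e
  have hset := stopping_eq (a2.trans b2.symm) fun i hi => ⟨a5 i hi, b5 i hi⟩
  unfold T
  rw [hset]

theorem V_le {K h n : ℕ} (hn : 2 ^ K < n) (hh : h ≤ n) :
    (V h n : ℝ) ≤ ((Pool.Agent.Helper14.T^[K] ''
      {m : ℤ | ∃ a : ℕ, a ≤ 0 ∧ |m - 3 ^ a * (n : ℤ)| ≤ (h : ℤ)}).ncard : ℝ) := by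
  classical
  have hfin : (Pool.Agent.Helper14.T^[K] ''
      {m : ℤ | ∃ a : ℕ, a ≤ 0 ∧ |m - 3 ^ a * (n : ℤ)| ≤ (h : ℤ)}).Finite := by
    apply Set.Finite.image
    apply (Set.finite_Icc ((n : ℤ) - h) (n + h)).subset
    rintro m ⟨a, ha, hm⟩
    have ha0 : a = 0 := by omega
    rw [ha0, pow_zero, one_mul] at hm
    have := abs_le.1 hm
    exact ⟨by linarith, by linarith⟩
  have key : V h n ≤ (Pool.Agent.Helper14.T^[K] ''
      {m : ℤ | ∃ a : ℕ, a ≤ 0 ∧ |m - 3 ^ a * (n : ℤ)| ≤ (h : ℤ)}).ncard := by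
    unfold V
    have hch : ∀ t : ℕ, ∃ g : ℕ, t ∈ T '' {m : ℕ | n ≤ m ∧ m ≤ n + h ∧ TDefined m} →
        (n ≤ g ∧ g ≤ n + h) ∧ T g = t := by
      intro t
      by_cases ht : t ∈ T '' {m : ℕ | n ≤ m ∧ m ≤ n + h ∧ TDefined m}
      · obtain ⟨m, ⟨h1, h2, _⟩, h4⟩ := ht
        exact ⟨m, fun _ => ⟨⟨h1, h2⟩, h4⟩⟩
      · exact ⟨0, fun h => absurd h ht⟩
    choose g hg using hch
    apply Set.ncard_le_ncard_of_injOn
      (fun t => Pool.Agent.Helper14.T^[K] ((g t : ℕ) : ℤ)) (ht := hfin)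
    · intro t ht
      obtain ⟨⟨h1, h2⟩, _⟩ := hg t ht
      refine ⟨(g t : ℤ), ⟨0, le_rfl, ?_⟩, rfl⟩
      rw [pow_zero, one_mul, abs_le]
      constructor <;> omega
    · intro t ht t' ht' htt
      obtain ⟨⟨h1, h2⟩, h3⟩ := hg t ht
      obtain ⟨⟨h1', h2'⟩, h3'⟩ := hg t' ht'
      have h4 : T (g t) = T (g t') :=
        T_eq_of (K := K) (by omega) (by omega) (by omega) (by omega) htt
      rw [← h3, ← h3', h4]
  exact_mod_cast key

theorem log_bound {N : ℕ} (hN : 2 ≤ N) {h : ℕ} (hh : 1 ≤ h) (hhN : N ≤ h ^ 2) :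
    (N : ℝ) ≤ 2 * N * ((1 + Real.log h) / Real.sqrt (Real.log N)) := by
  have hN1 : (1 : ℝ) < N := by exact_mod_cast (show 1 < N by omega)
  have hlog : 0 < Real.log N := Real.log_pos hN1
  have hsq : 0 < Real.sqrt (Real.log N) := Real.sqrt_pos.2 hlog
  have hh1 : (1 : ℝ) ≤ h := by exact_mod_cast hh
  have h1 : (N : ℝ) ≤ (h : ℝ) ^ 2 := by exact_mod_cast hhN
  have h2 := Real.log_le_log (by linarith) h1
  rw [Real.log_pow] at h2
  push_cast at h2
  have h3 : 1 ≤ 2 * ((1 + Real.log h) / Real.sqrt (Real.log N)) := by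
    rw [mul_div_assoc', one_le_div hsq]
    apply Real.sqrt_le_iff.2 ⟨by nlinarith, ?_⟩
    nlinarith
  calc (N : ℝ) = N * 1 := by ring
    _ ≤ N * (2 * ((1 + Real.log h) / Real.sqrt (Real.log N))) := by gcongr
    _ = 2 * N * ((1 + Real.log h) / Real.sqrt (Real.log N)) := by ring

theorem sqrt_bound {N : ℕ} (hN : 2 ≤ N) :
    Real.sqrt N ≤ N * (1 / Real.sqrt (Real.log N)) := by
  have hN1 : (1 : ℝ) < N := by exact_mod_cast (show 1 < N by omega)
  have hlog : 0 < Real.log N := Real.log_pos hN1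
  have hsq : 0 < Real.sqrt (Real.log N) := Real.sqrt_pos.2 hlog
  rw [mul_one_div, le_div_iff₀ hsq, ← Real.sqrt_mul (by positivity)]
  apply Real.sqrt_le_iff.2 ⟨by positivity, ?_⟩
  have h1 : Real.log N ≤ N := by
    have := Real.log_le_sub_one_of_pos (show (0 : ℝ) < N by linarith)
    linarith
  nlinarith

theorem part1 : ∃ K₀ : ℝ, 0 < K₀ ∧ ∀ N h : ℕ, 2 ≤ N → 1 ≤ h →
    (Set.ncard {n : ℕ | 1 ≤ n ∧ n ≤ N ∧ ¬ CoalB h n} : ℝ) ≤
      K₀ * N * ((1 + Real.log h) / Real.sqrt (Real.log N)) := by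
  obtain ⟨C₀, hC₀, hm⟩ := Pool.Agent.MB86.main
  refine ⟨C₀ + 5, by positivity, fun N h hN hh => ?_⟩
  have hN1 : (1 : ℝ) < N := by exact_mod_cast (show 1 < N by omega)
  have hlog : 0 < Real.log N := Real.log_pos hN1
  have hsq : 0 < Real.sqrt (Real.log N) := Real.sqrt_pos.2 hlog
  have hh1 : (1 : ℝ) ≤ h := by exact_mod_cast hh
  have hlogh : 0 ≤ Real.log h := Real.log_nonneg hh1
  have hr : 0 ≤ (1 + Real.log h) / Real.sqrt (Real.log N) := by positivity
  rcases le_or_gt N (h ^ 2) with hc | hc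
  · have h1 : (Set.ncard {n : ℕ | 1 ≤ n ∧ n ≤ N ∧ ¬ CoalB h n} : ℝ) ≤ N := by
      have h2 : Set.ncard {n : ℕ | 1 ≤ n ∧ n ≤ N ∧ ¬ CoalB h n} ≤ (Finset.Icc 1 N).card := by
        rw [← Set.ncard_coe_finset]
        apply Set.ncard_le_ncard _ (Finset.finite_toSet _)
        rintro n ⟨a, b, _⟩
        rw [Finset.mem_coe, Finset.mem_Icc]
        exact ⟨a, b⟩
      rw [Nat.card_Icc, Nat.add_sub_cancel] at h2
      exact_mod_cast h2
    refine (h1.trans (log_bound hN hh hc)).trans ?_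
    gcongr
    linarith
  · obtain ⟨K, hK⟩ : ∃ K, K = (Nat.log 2 N + 1) / 2 := ⟨_, rfl⟩
    have hl1 : 1 ≤ Nat.log 2 N := Nat.log_pos (by norm_num) hN
    have h1 := hm N h K hN hh (by omega) (by omega)
    have hKN : (2 ^ K) ^ 2 ≤ 2 * N := by
      rw [← pow_mul]
      calc 2 ^ (K * 2) ≤ 2 ^ (Nat.log 2 N + 1) := Nat.pow_le_pow_right (by norm_num) (by omega)
        _ = 2 ^ Nat.log 2 N * 2 := by rw [pow_succ]
        _ ≤ N * 2 := Nat.mul_le_mul_right 2 (Nat.pow_log_le_self 2 (by omega))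
        _ = 2 * N := by ring
    have hKr : ((2 ^ K : ℕ) : ℝ) ≤ 2 * Real.sqrt N := by
      have h2 : (((2 ^ K : ℕ) : ℝ)) ^ 2 ≤ 2 * N := by exact_mod_cast hKN
      have h3 : ((2 ^ K : ℕ) : ℝ) ≤ Real.sqrt (4 * N) := by
        apply Real.le_sqrt_of_sq_le
        linarith
      rw [Real.sqrt_mul (by norm_num)] at h3
      have h6 : Real.sqrt 4 = 2 := by
        rw [show (4 : ℝ) = 2 ^ 2 by norm_num, Real.sqrt_sq (by norm_num)]
      rwa [h6] at h3
    have hhr : (h : ℝ) ≤ Real.sqrt N := by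
      apply Real.le_sqrt_of_sq_le
      exact_mod_cast hc.le
    have h2 : Set.ncard {n : ℕ | 1 ≤ n ∧ n ≤ N ∧ ¬ CoalB h n} ≤ (2 ^ K + h) +
        {t : ℤ | |t| ≤ N ∧ ¬ ∀ b : ℕ, b ≤ h →
          Pool.Agent.Helper14.T^[K] (t + b) = Pool.Agent.Helper14.T^[K] t}.ncard := by
      have hfin : {t : ℤ | |t| ≤ N ∧ ¬ ∀ b : ℕ, b ≤ h →
          Pool.Agent.Helper14.T^[K] (t + b) = Pool.Agent.Helper14.T^[K] t}.Finite := by
        apply (Set.finite_Icc (-(N : ℤ)) (N : ℤ)).subset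
        rintro t ⟨ht, _⟩
        exact abs_le.1 ht
      have h3 : {n : ℕ | 1 ≤ n ∧ n ≤ N ∧ ¬ CoalB h n} ⊆
          ((Finset.Icc 1 (2 ^ K + h) : Finset ℕ) : Set ℕ) ∪
          {n : ℕ | n ≤ N ∧ ¬ ∀ b : ℕ, b ≤ h →
            Pool.Agent.Helper14.T^[K] ((n : ℤ) + b) = Pool.Agent.Helper14.T^[K] (n : ℤ)} := by
        rintro n ⟨a, b, hb⟩
        rcases le_or_gt n (2 ^ K + h) with h4 | h4
        · left
          rw [Finset.mem_coe, Finset.mem_Icc]
          exact ⟨a, h4⟩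
        · right
          have hp2 : 0 < 2 ^ K := by positivity
          exact ⟨b, fun H => hb (coalB_of (K := K) (by omega) (by omega) H)⟩
      have h4 : {n : ℕ | n ≤ N ∧ ¬ ∀ b : ℕ, b ≤ h →
            Pool.Agent.Helper14.T^[K] ((n : ℤ) + b) = Pool.Agent.Helper14.T^[K] (n : ℤ)}.ncard ≤
          {t : ℤ | |t| ≤ N ∧ ¬ ∀ b : ℕ, b ≤ h →
            Pool.Agent.Helper14.T^[K] (t + b) = Pool.Agent.Helper14.T^[K] t}.ncard := by
        apply Set.ncard_le_ncard_of_injOn (fun n : ℕ => (n : ℤ)) (ht := hfin)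
        · rintro n ⟨a, b⟩
          refine ⟨?_, b⟩
          rw [Nat.abs_cast]
          exact_mod_cast a
        · rintro n _ n' _ hnn
          simpa using hnn
      have hfin2 : {n : ℕ | n ≤ N ∧ ¬ ∀ b : ℕ, b ≤ h →
            Pool.Agent.Helper14.T^[K] ((n : ℤ) + b) = Pool.Agent.Helper14.T^[K] (n : ℤ)}.Finite :=
        (Set.finite_Iic N).subset fun _ h => h.1
      refine (Set.ncard_le_ncard h3 ((Finset.finite_toSet _).union hfin2)).trans ?_
      refine (Set.ncard_union_le _ _).trans ?_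
      rw [Set.ncard_coe_finset, Nat.card_Icc, Nat.add_sub_cancel]
      exact Nat.add_le_add_left h4 _
    have h3 : (Set.ncard {n : ℕ | 1 ≤ n ∧ n ≤ N ∧ ¬ CoalB h n} : ℝ) ≤ (((2 ^ K : ℕ) : ℝ) + h) +
        ({t : ℤ | |t| ≤ N ∧ ¬ ∀ b : ℕ, b ≤ h →
          Pool.Agent.Helper14.T^[K] (t + b) = Pool.Agent.Helper14.T^[K] t}.ncard : ℝ) := by
      exact_mod_cast h2
    have h4 := sqrt_bound hN
    have h5 : (N : ℝ) * (1 / Real.sqrt (Real.log N)) ≤
        N * ((1 + Real.log h) / Real.sqrt (Real.log N)) := by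
      gcongr
      linarith
    have h6 : C₀ * N * (1 + Real.log h) / Real.sqrt (Real.log N) =
        C₀ * (N * ((1 + Real.log h) / Real.sqrt (Real.log N))) := by ring
    rw [h6] at h1
    have h7 : (C₀ + 5) * N * ((1 + Real.log h) / Real.sqrt (Real.log N)) =
        C₀ * (N * ((1 + Real.log h) / Real.sqrt (Real.log N))) +
        5 * (N * ((1 + Real.log h) / Real.sqrt (Real.log N))) := by ring
    rw [h7]
    have h8 : 0 ≤ (N : ℝ) * ((1 + Real.log h) / Real.sqrt (Real.log N)) := by positivity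
    linarith

theorem part2 : ∃ K₀ : ℝ, 0 < K₀ ∧ ∀ x Y h : ℕ, 2 ≤ Y → Y < x → 1 ≤ h →
    (Set.ncard {n : ℕ | x ≤ n ∧ n < x + Y ∧ ¬ CoalB h n} : ℝ) ≤
      K₀ * Y * ((1 + Real.log h) / Real.sqrt (Real.log Y)) := by
  obtain ⟨C₀, hC₀, hm⟩ := Pool.Agent.MB86.wideI
  refine ⟨C₀ + 5, by positivity, fun x Y h hY hx hh => ?_⟩
  have hN1 : (1 : ℝ) < Y := by exact_mod_cast (show 1 < Y by omega)
  have hlog : 0 < Real.log Y := Real.log_pos hN1
  have hsq : 0 < Real.sqrt (Real.log Y) := Real.sqrt_pos.2 hlog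
  have hh1 : (1 : ℝ) ≤ h := by exact_mod_cast hh
  have hlogh : 0 ≤ Real.log h := Real.log_nonneg hh1
  have hr : 0 ≤ (1 + Real.log h) / Real.sqrt (Real.log Y) := by positivity
  rcases le_or_gt h Y with hc | hc
  · have h1 := hm 0 h Y (x : ℤ) hh hY
    have h2 : Set.ncard {n : ℕ | x ≤ n ∧ n < x + Y ∧ ¬ CoalB h n} ≤
        Set.ncard {z : ℤ | (x : ℤ) ≤ z ∧ z < x + Y ∧ ∃ n : ℤ,
          (∃ a : ℕ, a ≤ 0 ∧ |n - 3 ^ a * z| ≤ (h : ℤ)) ∧
          Pool.Agent.Helper14.T^[Nat.log 2 Y] n ≠ Pool.Agent.Helper14.T^[Nat.log 2 Y] z} := by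
      have hfin : {z : ℤ | (x : ℤ) ≤ z ∧ z < x + Y ∧ ∃ n : ℤ,
          (∃ a : ℕ, a ≤ 0 ∧ |n - 3 ^ a * z| ≤ (h : ℤ)) ∧
          Pool.Agent.Helper14.T^[Nat.log 2 Y] n ≠ Pool.Agent.Helper14.T^[Nat.log 2 Y] z}.Finite := by
        apply (Set.finite_Icc (x : ℤ) (x + Y)).subset
        rintro t ⟨a, b, _⟩
        exact ⟨a, b.le⟩
      apply Set.ncard_le_ncard_of_injOn (fun n : ℕ => (n : ℤ)) (ht := hfin)
      · rintro n ⟨a, b, hb⟩
        refine ⟨by exact_mod_cast a, by exact_mod_cast b, ?_⟩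
        by_contra hno
        push Not at hno
        apply hb
        have hlt : 2 ^ Nat.log 2 Y ≤ Y := Nat.pow_log_le_self 2 (by omega)
        apply coalB_of (K := Nat.log 2 Y) (by omega) (by omega)
        intro d hd
        apply hno
        refine ⟨0, le_rfl, ?_⟩
        rw [pow_zero, one_mul, add_sub_cancel_left, Nat.abs_cast]
        exact_mod_cast hd
      · rintro n _ n' _ hnn
        simpa using hnn
    have h3 : (Set.ncard {n : ℕ | x ≤ n ∧ n < x + Y ∧ ¬ CoalB h n} : ℝ) ≤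
        C₀ * Y * ((1 + ((0 : ℕ) : ℝ) + Real.log h) / Real.sqrt (Real.log Y)) := by
      refine le_trans ?_ h1
      exact_mod_cast h2
    rw [Nat.cast_zero, add_zero] at h3
    refine h3.trans ?_
    gcongr
    linarith
  · have h1 : (Set.ncard {n : ℕ | x ≤ n ∧ n < x + Y ∧ ¬ CoalB h n} : ℝ) ≤ Y := by
      have h2 : Set.ncard {n : ℕ | x ≤ n ∧ n < x + Y ∧ ¬ CoalB h n} ≤ (Finset.Ico x (x + Y)).card := by
        rw [← Set.ncard_coe_finset]
        apply Set.ncard_le_ncard _ (Finset.finite_toSet _)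
        rintro n ⟨a, b, _⟩
        rw [Finset.mem_coe, Finset.mem_Ico]
        exact ⟨a, b⟩
      rw [Nat.card_Ico, Nat.add_sub_cancel_left] at h2
      exact_mod_cast h2
    refine (h1.trans (log_bound hY hh ?_)).trans ?_
    · nlinarith
    · gcongr
      linarith

theorem part3 : ∃ c K₀ : ℝ, 0 < c ∧ 0 < K₀ ∧ ∀ x Y h : ℕ, 2 ≤ Y → Y < x → 1 ≤ h →
    Real.log h ≤ c * Real.log Y → ∑ n ∈ Finset.Ico x (x + Y), (V h n : ℝ) ≤
      Y + K₀ * Y * ((1 + Real.log h) / Real.sqrt (Real.log Y)) := by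
  obtain ⟨c, C₀, hc, hC₀, hm⟩ := Pool.Agent.MB86.orbitsI
  refine ⟨min c 1, C₀, lt_min hc one_pos, hC₀, fun x Y h hY hx hh hlh => ?_⟩
  have hN1 : (1 : ℝ) < Y := by exact_mod_cast (show 1 < Y by omega)
  have hlog : 0 < Real.log Y := Real.log_pos hN1
  have hh1 : (1 : ℝ) ≤ h := by exact_mod_cast hh
  have hhY : h ≤ Y := by
    have h1 : Real.log h ≤ Real.log Y := by
      refine hlh.trans ?_
      have := mul_le_mul_of_nonneg_right (min_le_right c 1) hlog.le
      linarith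
    have h2 := (Real.log_le_log_iff (by linarith) (by linarith)).1 h1
    exact_mod_cast h2
  have h1 := hm 0 h Y (x : ℤ) hh hY (by
    rw [Nat.cast_zero, zero_add]
    refine hlh.trans ?_
    exact mul_le_mul_of_nonneg_right (min_le_left c 1) hlog.le)
  rw [Nat.cast_zero, add_zero] at h1
  refine le_trans ?_ h1
  have h2 : ∑ n ∈ Finset.Ico x (x + Y), (V h n : ℝ) ≤
      ∑ n ∈ Finset.Ico x (x + Y), ((Pool.Agent.Helper14.T^[Nat.log 2 Y] ''
        {m : ℤ | ∃ a : ℕ, a ≤ 0 ∧ |m - 3 ^ a * (n : ℤ)| ≤ (h : ℤ)}).ncard : ℝ) := by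
    apply Finset.sum_le_sum
    intro n hn
    rw [Finset.mem_Ico] at hn
    have hlt : 2 ^ Nat.log 2 Y ≤ Y := Nat.pow_log_le_self 2 (by omega)
    exact V_le (by omega) (by omega)
  refine h2.trans (le_of_eq ?_)
  have h3 : Finset.Ico (x : ℤ) ((x : ℤ) + Y) = (Finset.Ico x (x + Y)).image (fun n : ℕ => (n : ℤ)) := by
    ext z
    rw [Finset.mem_image, Finset.mem_Ico]
    constructor
    · rintro ⟨a, b⟩
      refine ⟨z.toNat, ?_, by omega⟩
      rw [Finset.mem_Ico]
      omega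
    · rintro ⟨n, hn, rfl⟩
      rw [Finset.mem_Ico] at hn
      omega
  rw [h3, Finset.sum_image]
  intro a _ b _ hab
  simpa using hab

/-- **Blocks of consecutive integers under the Collatz map.**  There are `c, K₀ > 0` such that
1. for all but `K₀ N (1 + log h) / √(log N)` of the `n ≤ N` the integers `n, n + 1, …, n + h` coalesce after
equally many steps, before any of them reaches `1`;
2. the same in every interval `[x, x + Y)` with `Y < x`, with `Y` in the place of `N`;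
3. if `log h ≤ c log Y` and `Y < x`, then the stopping time `T` takes on average over `n` in `[x, x + Y)` at most
`1 + K₀ (1 + log h) / √(log Y)` values on the integers of `[n, n + h]` where it is defined. -/
theorem result : ∃ c K₀ : ℝ, 0 < c ∧ 0 < K₀ ∧
    (∀ N h : ℕ, 2 ≤ N → 1 ≤ h →
      (Set.ncard {n : ℕ | 1 ≤ n ∧ n ≤ N ∧ ¬ CoalB h n} : ℝ) ≤
        K₀ * N * ((1 + Real.log h) / Real.sqrt (Real.log N))) ∧
    ∀ x Y h : ℕ, 2 ≤ Y → Y < x → 1 ≤ h →
      (Set.ncard {n : ℕ | x ≤ n ∧ n < x + Y ∧ ¬ CoalB h n} : ℝ) ≤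
        K₀ * Y * ((1 + Real.log h) / Real.sqrt (Real.log Y)) ∧
      (Real.log h ≤ c * Real.log Y → ∑ n ∈ Finset.Ico x (x + Y), (V h n : ℝ) ≤
        Y + K₀ * Y * ((1 + Real.log h) / Real.sqrt (Real.log Y))) := by
  obtain ⟨K₁, hK₁, h1⟩ := part1
  obtain ⟨K₂, hK₂, h2⟩ := part2
  obtain ⟨c, K₃, hc, hK₃, h3⟩ := part3
  refine ⟨c, K₁ + K₂ + K₃, hc, by positivity, fun N h hN hh => ?_, fun x Y h hY hx hh => ⟨?_, fun hl => ?_⟩⟩
  · have hlog : 0 < Real.log N := Real.log_pos (by exact_mod_cast (show 1 < N by omega))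
    have hlogh : 0 ≤ Real.log h := Real.log_nonneg (by exact_mod_cast hh)
    refine (h1 N h hN hh).trans ?_
    gcongr
    linarith
  · have hlog : 0 < Real.log Y := Real.log_pos (by exact_mod_cast (show 1 < Y by omega))
    have hlogh : 0 ≤ Real.log h := Real.log_nonneg (by exact_mod_cast hh)
    refine (h2 x Y h hY hx hh).trans ?_
    gcongr
    linarith
  · have hlog : 0 < Real.log Y := Real.log_pos (by exact_mod_cast (show 1 < Y by omega))
    have hlogh : 0 ≤ Real.log h := Real.log_nonneg (by exact_mod_cast hh)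
    refine (h3 x Y h hY hx hh hl).trans ?_
    gcongr
    linarith

end Pool.Agent.Results.MP_34aa70_nt.CoalescenceDensity
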