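import Mathlib
import Pool.Agent.Helper86.CollatzChain
import Pool.Agent.Collatz3.DNPred
import Pool.Agent.Results.MP_34aa70_nt.CoalescenceDensity

set_option autoImplicit false

namespace Pool.Agent.Results.MP_34aa70_nt.ZeroDensity

open Filter Topology

/-- The Collatz map. -/
def C (n : ℕ) : ℕ := if n % 2 = 0 then n / 2 else 3 * n + 1

/-- `T n` is defined, that is, some iterate of `n` equals `1`. -/
def TDefined (n : ℕ) : Prop := ∃ k : ℕ, C^[k] n = 1

/-- The number of iterations needed to reach `1`. -/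
noncomputable def T (n : ℕ) : ℕ := sInf {k : ℕ | C^[k] n = 1}

/-- The difference `T (n + 1) - T n`. -/
noncomputable def a (n : ℕ) : ℤ := (T (n + 1) : ℤ) - (T n : ℤ)

/-- The number of `1 ≤ i ≤ N` for which `a i` is defined and zero. -/
noncomputable def Z (N : ℕ) : ℕ :=
  Set.ncard {i : ℕ | 1 ≤ i ∧ i ≤ N ∧ TDefined i ∧ TDefined (i + 1) ∧ a i = 0}

/-- `A` has natural density `δ`, and the same density along every arithmetic progression. -/
def Dens (A : Set ℕ) (δ : ℝ) : Prop :=
  ∀ q r : ℕ, 1 ≤ q →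
    Tendsto (fun N : ℕ => (Set.ncard {m : ℕ | m ≤ N ∧ q * m + r ∈ A} : ℝ) / N) atTop (𝓝 δ)

/-! ### The two maps -/

theorem C_even (t : ℕ) : C (2 * t) = t := by
  unfold C
  have h : 2 * t % 2 = 0 := by omega
  rw [if_pos h]; omega

theorem C_odd {n : ℕ} (h : n % 2 = 1) : C n = 3 * n + 1 := by
  unfold C
  rw [if_neg (by omega)]

theorem C_C_odd (t : ℕ) : C (C (2 * t + 1)) = 3 * t + 2 := by
  rw [C_odd (by omega : (2 * t + 1) % 2 = 1)]
  have : 3 * (2 * t + 1) + 1 = 2 * (3 * t + 2) := by ring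
  rw [this, C_even]

theorem T_even (t : ℕ) : Pool.Agent.Helper14.T ((2 * t : ℕ) : ℤ) = (t : ℤ) := by
  unfold Pool.Agent.Helper14.T
  rw [if_pos (by push_cast; exact Dvd.intro _ rfl)]
  push_cast
  omega

theorem T_odd (t : ℕ) : Pool.Agent.Helper14.T ((2 * t + 1 : ℕ) : ℤ) = ((3 * t + 2 : ℕ) : ℤ) := by
  unfold Pool.Agent.Helper14.T
  rw [if_neg (by push_cast; omega)]
  push_cast
  omega

theorem defined_of_reach (k : ℕ) : ∀ n : ℕ, Pool.Agent.Helper14.T^[k] (n : ℤ) = 1 →
    TDefined n := by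
  induction k with
  | zero =>
    intro n h
    have h1 : (n : ℤ) = 1 := h
    have : n = 1 := by exact_mod_cast h1
    exact ⟨0, this⟩
  | succ k ih =>
    intro n h
    rw [Function.iterate_succ_apply] at h
    rcases Nat.even_or_odd' n with ⟨t, rfl | rfl⟩
    · rw [T_even] at h
      obtain ⟨j, hj⟩ := ih t h
      exact ⟨j + 1, by rw [Function.iterate_succ_apply, C_even]; exact hj⟩
    · rw [T_odd] at h
      obtain ⟨j, hj⟩ := ih _ h
      exact ⟨j + 2, by
        rw [Function.iterate_succ_apply, Function.iterate_succ_apply, C_C_odd]; exact hj⟩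

theorem reach_of_defined (k : ℕ) : ∀ n : ℕ, C^[k] n = 1 →
    ∃ j : ℕ, Pool.Agent.Helper14.T^[j] (n : ℤ) = 1 := by
  induction k using Nat.strong_induction_on with
  | _ k ih =>
    intro n h
    rcases k with _ | k
    · exact ⟨0, by
        have : n = 1 := h
        rw [this]
        rfl⟩
    rw [Function.iterate_succ_apply] at h
    rcases Nat.even_or_odd' n with ⟨t, rfl | rfl⟩
    · rw [C_even] at h
      obtain ⟨j, hj⟩ := ih k (by omega) t h
      exact ⟨j + 1, by rw [Function.iterate_succ_apply, T_even]; exact hj⟩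
    · rcases k with _ | k
      · exfalso
        have h1 : C (2 * t + 1) = 1 := h
        rw [C_odd (by omega)] at h1
        omega
      · rw [Function.iterate_succ_apply, C_C_odd] at h
        obtain ⟨j, hj⟩ := ih k (by omega) _ h
        exact ⟨j + 1, by rw [Function.iterate_succ_apply, T_odd]; exact hj⟩

/-- The integers that reach `1`. -/
def R : Set ℤ := {n : ℤ | ∃ k : ℕ, Pool.Agent.Helper14.T^[k] n = 1}

theorem defined_iff (n : ℕ) : TDefined n ↔ (n : ℤ) ∈ R :=
  ⟨fun ⟨k, hk⟩ => reach_of_defined k n hk, fun ⟨k, hk⟩ => defined_of_reach k n hk⟩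

theorem not_defined_zero : ¬ TDefined 0 := by
  rintro ⟨k, hk⟩
  have h : ∀ k : ℕ, C^[k] 0 = 0 := by
    intro k
    induction k with
    | zero => rfl
    | succ k ih =>
      rw [Function.iterate_succ_apply]
      exact ih
  rw [h k] at hk
  exact absurd hk (by norm_num)

theorem defined_dens {δ : ℝ} (h : Pool.Agent.Collatz3.DN.Dens 1 R δ) :
    Dens {n | TDefined n} δ := by
  intro q r hq
  have h1 := (h q r hq).comp (tendsto_natCast_atTop_atTop (R := ℝ))
  refine h1.congr fun N => ?_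
  simp only [Function.comp_apply]
  congr 3
  ext m
  simp only [Set.mem_ofPred_eq, Nat.cast_le, one_mul]
  rw [defined_iff]
  push_cast
  rfl

theorem prog_finite (N : ℕ) (P : ℕ → Prop) : {m : ℕ | m ≤ N ∧ P m}.Finite :=
  (Set.finite_Iic N).subset fun _ h => h.1

/-- Along a progression the bad set has density zero. -/
theorem bad_le (d q r N : ℕ) (hq : 1 ≤ q) :
    Set.ncard {m : ℕ | m ≤ N ∧ 1 ≤ q * m + r ∧ ¬ CoalescenceDensity.Coal d (q * m + r)} ≤
      CoalescenceDensity.Bad d (q * N + r) := by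
  unfold CoalescenceDensity.Bad
  apply Set.ncard_le_ncard_of_injOn (fun m : ℕ => q * m + r)
    (ht := CoalescenceDensity.finite_le _ _)
  · rintro m ⟨h1, h2, h3⟩
    exact ⟨h2, Nat.add_le_add_right (Nat.mul_le_mul_left q h1) r, h3⟩
  · intro m _ m' _ h
    simp only at h
    have : q * m = q * m' := by omega
    exact Nat.eq_of_mul_eq_mul_left hq this

theorem bad_tendsto (d q r : ℕ) (hq : 1 ≤ q) : Tendsto (fun N : ℕ =>
    (Set.ncard {m : ℕ | m ≤ N ∧ 1 ≤ q * m + r ∧ ¬ CoalescenceDensity.Coal d (q * m + r)} : ℝ) / N)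
    atTop (𝓝 0) := by
  have h1 : Tendsto (fun N : ℕ => q * N + r) atTop atTop := by
    apply tendsto_atTop_mono _ tendsto_id
    intro N
    have : N ≤ q * N := Nat.le_mul_of_pos_left _ hq
    simp only [id]
    omega
  have h2 := ((CoalescenceDensity.Bad_tendsto d).comp h1).const_mul ((q : ℝ) + r)
  rw [mul_zero] at h2
  refine squeeze_zero' (Eventually.of_forall fun N => by positivity) ?_ h2
  filter_upwards [eventually_ge_atTop 1] with N hN
  simp only [Function.comp_apply]
  have hN0 : (0 : ℝ) < N := by exact_mod_cast hN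
  have hM0 : (0 : ℝ) < ((q * N + r : ℕ) : ℝ) := by
    have : 0 < q * N + r := by positivity
    exact_mod_cast this
  have h3 : (Set.ncard {m : ℕ | m ≤ N ∧ 1 ≤ q * m + r ∧
      ¬ CoalescenceDensity.Coal d (q * m + r)} : ℝ) ≤ CoalescenceDensity.Bad d (q * N + r) := by
    exact_mod_cast bad_le d q r N hq
  rw [mul_div_assoc', div_le_div_iff₀ hN0 hM0]
  have h4 : ((q * N + r : ℕ) : ℝ) ≤ ((q : ℝ) + r) * N := by
    have h5 : (1 : ℝ) ≤ N := by exact_mod_cast hN
    have h6 : (0 : ℝ) ≤ r := Nat.cast_nonneg r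
    push_cast
    nlinarith
  calc _ ≤ (CoalescenceDensity.Bad d (q * N + r) : ℝ) * (((q : ℝ) + r) * N) :=
        mul_le_mul h3 h4 hM0.le (Nat.cast_nonneg _)
    _ = _ := by ring

theorem equal_of_coal {d n : ℕ} (hn : TDefined n) (h : CoalescenceDensity.Coal d n) :
    TDefined (n + d) ∧ T (n + d) = T n := by
  obtain ⟨m, hm1, hm2⟩ := h
  have hset : {k : ℕ | C^[k] n = 1} = {k : ℕ | C^[k] (n + d) = 1} :=
    CoalescenceDensity.stopping_eq hm1 hm2
  constructor
  · obtain ⟨k, hk⟩ := hn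
    have h2 : k ∈ {k : ℕ | C^[k] n = 1} := hk
    rw [hset] at h2
    exact ⟨k, h2⟩
  · unfold T
    rw [hset]

theorem equal_dens {δ : ℝ} (h : Dens {n | TDefined n} δ) (d : ℕ) :
    Dens {n | TDefined n ∧ TDefined (n + d) ∧ T (n + d) = T n} δ := by
  intro q r hq
  have h1 := h q r hq
  have h2 := h1.sub (bad_tendsto d q r hq)
  rw [sub_zero] at h2
  refine tendsto_of_tendsto_of_tendsto_of_le_of_le h2 h1 ?_ ?_
  · intro N
    simp only
    rw [← sub_div]
    apply div_le_div_of_nonneg_right _ (Nat.cast_nonneg N)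
    rw [sub_le_iff_le_add]
    have h3 : {m : ℕ | m ≤ N ∧ q * m + r ∈ {n | TDefined n}} ⊆
        {m : ℕ | m ≤ N ∧ q * m + r ∈
          {n | TDefined n ∧ TDefined (n + d) ∧ T (n + d) = T n}} ∪
        {m : ℕ | m ≤ N ∧ 1 ≤ q * m + r ∧ ¬ CoalescenceDensity.Coal d (q * m + r)} := by
      rintro m ⟨h4, h5⟩
      by_cases h6 : CoalescenceDensity.Coal d (q * m + r)
      · left
        exact ⟨h4, h5, equal_of_coal h5 h6⟩
      · right
        refine ⟨h4, ?_, h6⟩
        by_contra hcon
        have h7 : q * m + r = 0 := by omega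
        rw [Set.mem_ofPred_eq, h7] at h5
        exact not_defined_zero h5
    have h4 := Set.ncard_le_ncard h3 ((prog_finite N _).union (prog_finite N _))
    have h5 := Set.ncard_union_le
      {m : ℕ | m ≤ N ∧ q * m + r ∈ {n | TDefined n ∧ TDefined (n + d) ∧ T (n + d) = T n}}
      {m : ℕ | m ≤ N ∧ 1 ≤ q * m + r ∧ ¬ CoalescenceDensity.Coal d (q * m + r)}
    exact_mod_cast h4.trans h5
  · intro N
    simp only
    apply div_le_div_of_nonneg_right _ (Nat.cast_nonneg N)
    have h3 : {m : ℕ | m ≤ N ∧ q * m + r ∈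
        {n | TDefined n ∧ TDefined (n + d) ∧ T (n + d) = T n}} ⊆
        {m : ℕ | m ≤ N ∧ q * m + r ∈ {n | TDefined n}} := by
      rintro m ⟨h4, h5⟩
      exact ⟨h4, h5.1⟩
    exact_mod_cast Set.ncard_le_ncard h3 (prog_finite N _)

theorem Z_tendsto {δ : ℝ} (h : Dens {n | TDefined n} δ) :
    Tendsto (fun N : ℕ => (Z N : ℝ) / N) atTop (𝓝 δ) := by
  have h1 := equal_dens h 1 1 0 le_rfl
  refine h1.congr fun N => ?_
  unfold Z
  congr 3
  ext m
  simp only [Set.mem_ofPred_eq, one_mul, add_zero]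
  constructor
  · rintro ⟨h2, h3, h4, h5⟩
    refine ⟨?_, h2, h3, h4, ?_⟩
    · by_contra hcon
      have h7 : m = 0 := by omega
      rw [h7] at h3
      exact not_defined_zero h3
    · unfold a
      rw [h5, sub_self]
  · rintro ⟨-, h2, h3, h4, h5⟩
    refine ⟨h2, h3, h4, ?_⟩
    unfold a at h5
    have : (T (m + 1) : ℤ) = T m := by linarith
    exact_mod_cast this

/-- **The zeros of `a` have a natural density.** It is positive, the same along every arithmetic
progression, equal to the density of the domain of `T`, the same for all differences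
`T (n + d) - T n`, and it is `1` if and only if every positive integer reaches `1`. -/
theorem result : ∃ δ : ℝ, 0 < δ ∧
    Tendsto (fun N : ℕ => (Z N : ℝ) / N) atTop (𝓝 δ) ∧
    Dens {n | TDefined n} δ ∧
    (∀ d : ℕ, Dens {n | TDefined n ∧ TDefined (n + d) ∧ T (n + d) = T n} δ) ∧
    (δ = 1 ↔ ∀ n : ℕ, 1 ≤ n → TDefined n) := by
  obtain ⟨c, hc, hinv⟩ := Pool.Agent.Collatz3.DN.inv_dens
  have hσ : |(1 : ℤ)| = 1 := by norm_num
  obtain ⟨δ, hδ, hpos⟩ := hinv 1 hσ R Pool.Agent.Collatz3.DN.reach_one_inv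
  have h1R : (1 : ℤ) ∈ R := ⟨0, rfl⟩
  have hδ0 : 0 < δ := by
    have := hpos 1 h1R (by norm_num)
    have h2 : c / |((1 : ℤ) : ℝ)| = c := by norm_num
    rw [h2] at this
    linarith
  have hD := defined_dens hδ
  have hZ := Z_tendsto hD
  refine ⟨δ, hδ0, hZ, hD, equal_dens hD, ?_⟩
  constructor
  · intro h1 n hn
    by_contra hcon
    have hinvc : ∀ m, Pool.Agent.Helper14.T m ∈ Rᶜ ↔ m ∈ Rᶜ := fun m =>
      not_congr (Pool.Agent.Collatz3.DN.reach_one_inv m)
    obtain ⟨d', hd', hpos'⟩ := hinv 1 hσ Rᶜ hinvc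
    have hn' : (n : ℤ) ∈ Rᶜ := fun h => hcon ((defined_iff n).2 h)
    have hd0 : 0 < d' := by
      have h2 := hpos' n hn' (by rw [one_mul]; exact_mod_cast hn)
      have h3 : 0 < |((n : ℤ) : ℝ)| := by
        rw [abs_pos]
        have : (n : ℤ) ≠ 0 := by omega
        exact_mod_cast this
      have := div_pos hc h3
      linarith
    have h2 := hδ.tendsto.add hd'.tendsto
    have h3 : Tendsto (Pool.Agent.Collatz3.DN.D 1 Set.univ) atTop (𝓝 (δ + d')) := by
      refine h2.congr fun x => ?_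
      rw [← Pool.Agent.Collatz3.DN.D_union disjoint_compl_right x, Set.union_compl_self]
    have h4 := tendsto_nhds_unique h3 Pool.Agent.Collatz3.DN.D_univ
    linarith
  · intro h1
    exact tendsto_nhds_unique hZ (CoalescenceDensity.Z_tendsto_one h1)

end Pool.Agent.Results.MP_34aa70_nt.ZeroDensity
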